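import Mathlib

set_option autoImplicit false

/-!
# Basic definitions for the final assembly of `MP_5f9601` (Q1, frozen statement `S13261`)

* `zeta N = exp(2πi/N)`, `Sph n` = the unit sphere of `ℂⁿ`;
* `EqMap p k a b`: there is a continuous map `F : Sph a → Sph b` with
  `F (ζ_{p^(k+1)} x) = ζ_{p^k} F x`;
* `HU p`: the existence of such maps with loss `O((k+1)^r b^θ)`, `θ < 1`.
-/

namespace Pool.Agent.H.MP_5f9601.FA

/-- The complex vector space `ℂⁿ`. -/
abbrev V (n : ℕ) : Type := EuclideanSpace ℂ (Fin n)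

/-- The unit sphere of `ℂⁿ`. -/
abbrev Sph (n : ℕ) : Type := ↥(Metric.sphere (0 : EuclideanSpace ℂ (Fin n)) 1)

/-- `exp(2πi/N)`. -/
noncomputable def zeta (N : ℕ) : ℂ := Complex.exp (2 * (Real.pi : ℂ) * Complex.I / (N : ℂ))

/-- Existence of a continuous map `S(ℂᵃ) → S(ℂᵇ)` carrying rotation by `ζ_{p^(k+1)}` to rotation
by `ζ_{p^k}`. -/
def EqMap (p k a b : ℕ) : Prop :=
  ∃ F : C(Sph a, Sph b), ∀ x y : Sph a,
    (y : V a) = zeta (p ^ (k + 1)) • (x : V a) → (F y : V b) = zeta (p ^ k) • (F x : V b)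

/-- The equivariant maps exist with a loss that is polynomial in `k` and sublinear in `b`. -/
def HU (p : ℕ) : Prop :=
  ∃ (C : ℝ) (r : ℕ) (θ : ℝ), θ < 1 ∧ ∀ k b a : ℕ, 1 ≤ k → 1 ≤ b →
    (a : ℝ) + C * ((k : ℝ) + 1) ^ r * (b : ℝ) ^ θ ≤ p * b → EqMap p k a b

theorem norm_zeta (N : ℕ) : ‖zeta N‖ = 1 := by
  have h : 2 * (Real.pi : ℂ) * Complex.I / (N : ℂ) = ((2 * Real.pi / N : ℝ) : ℂ) * Complex.I := by
    push_cast
    ring
  rw [zeta, h, Complex.norm_exp_ofReal_mul_I]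

theorem zeta_ne_zero (N : ℕ) : zeta N ≠ 0 := Complex.exp_ne_zero _

theorem zeta_pow_self (N : ℕ) (hN : 0 < N) : zeta N ^ N = 1 := by
  have hN' : (N : ℂ) ≠ 0 := by exact_mod_cast hN.ne'
  rw [zeta, ← Complex.exp_nat_mul, mul_div_cancel₀ _ hN', Complex.exp_two_pi_mul_I]

/-- `ζ_{pN}^p = ζ_N`. -/
theorem zeta_mul_pow (p N : ℕ) (hp : 0 < p) : zeta (p * N) ^ p = zeta N := by
  have hp' : (p : ℂ) ≠ 0 := by exact_mod_cast hp.ne'
  rw [zeta, ← Complex.exp_nat_mul, zeta]
  congr 1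
  push_cast
  rcases Nat.eq_zero_or_pos N with rfl | hN
  · simp
  · have hN' : (N : ℂ) ≠ 0 := by exact_mod_cast hN.ne'
    field_simp

/-- Scalar multiplication by a unit complex number on the sphere. -/
noncomputable def rot {n : ℕ} (c : ℂ) (hc : ‖c‖ = 1) (x : Sph n) : Sph n :=
  ⟨c • (x : V n), by
    rw [mem_sphere_zero_iff_norm, norm_smul, hc, one_mul, mem_sphere_zero_iff_norm.mp x.2]⟩

theorem rot_coe {n : ℕ} (c : ℂ) (hc : ‖c‖ = 1) (x : Sph n) : (rot c hc x : V n) = c • (x : V n) :=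
  rfl

theorem sph_ne_zero {n : ℕ} (x : Sph n) : (x : V n) ≠ 0 := by
  intro h
  have := mem_sphere_zero_iff_norm.mp x.2
  rw [h, norm_zero] at this
  exact zero_ne_one this

/-- The relation on the sphere: `y` is a power of `ζ_N` times `x`. -/
def rel (n N : ℕ) (x y : Sph n) : Prop :=
  ∃ j : ℕ, (y : V n) = zeta N ^ j • (x : V n)

theorem rel_equivalence (n N : ℕ) (hN : 0 < N) : Equivalence (rel n N) where
  refl x := ⟨0, by simp⟩
  symm := by
    rintro x y ⟨j, hj⟩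
    refine ⟨(N - 1) * j, ?_⟩
    rw [hj, smul_smul, ← pow_add]
    have h1 : (N - 1) * j + j = N * j := by
      obtain ⟨M, rfl⟩ : ∃ M, N = M + 1 := ⟨N - 1, by omega⟩
      simp only [Nat.add_sub_cancel]
      ring
    rw [h1, pow_mul, zeta_pow_self N hN, one_pow, one_smul]
  trans := by
    rintro x y z ⟨i, hi⟩ ⟨j, hj⟩
    exact ⟨j + i, by rw [hj, hi, smul_smul, pow_add]⟩

/-- A map that is equivariant for the generators respects the relations. -/
theorem iterate_equivariant {a b : ℕ} {c d : ℂ} (hc : ‖c‖ = 1) (F : C(Sph a, Sph b))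
    (hF : ∀ x y : Sph a, (y : V a) = c • (x : V a) → (F y : V b) = d • (F x : V b))
    (j : ℕ) : ∀ x y : Sph a, (y : V a) = c ^ j • (x : V a) → (F y : V b) = d ^ j • (F x : V b) := by
  induction j with
  | zero =>
    intro x y h
    have : y = x := Subtype.ext (by simpa using h)
    subst this
    simp
  | succ j ih =>
    intro x y h
    have h1 : (y : V a) = c ^ j • ((rot c hc x : Sph a) : V a) := by
      rw [rot_coe, smul_smul, ← pow_succ]
      exact h
    rw [ih _ _ h1, hF x (rot c hc x) rfl, smul_smul, ← pow_succ]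

end Pool.Agent.H.MP_5f9601.FA
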