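import Mathlib

set_option autoImplicit false

/-!
# Simple connectivity of unit spheres in real normed spaces of dimension at least three
-/

namespace Pool.Agent.H.MP_5f9601.FA

open scoped Topology unitInterval

variable {E : Type*} [NormedAddCommGroup E] [NormedSpace ℝ E]

/-- Normalisation of a continuous nowhere zero map, as a map into the unit sphere. -/
noncomputable def nrm (v : E) (hv : v ≠ 0) : Metric.sphere (0 : E) 1 :=
  ⟨‖v‖⁻¹ • v, by
    rw [mem_sphere_zero_iff_norm, norm_smul, norm_inv, norm_norm,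
      inv_mul_cancel₀ (norm_ne_zero_iff.mpr hv)]⟩

theorem nrm_coe (v : E) (hv : v ≠ 0) : (nrm v hv : E) = ‖v‖⁻¹ • v := rfl

theorem nrm_of_sphere (v : Metric.sphere (0 : E) 1) (hv : (v : E) ≠ 0) : nrm (v : E) hv = v := by
  apply Subtype.ext
  rw [nrm_coe, mem_sphere_zero_iff_norm.mp v.2, inv_one, one_smul]

theorem continuous_nrm {X : Type*} [TopologicalSpace X] (f : X → E) (hf : Continuous f)
    (h0 : ∀ x, f x ≠ 0) : Continuous (fun x => nrm (f x) (h0 x)) := by
  apply Continuous.subtype_mk
  exact (hf.norm.inv₀ (fun x => norm_ne_zero_iff.mpr (h0 x))).smul hf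

/-- If `(1 - s) a + s b = 0` with unit vectors `a`, `b`, then `a = -b`. -/
theorem eq_neg_of_comb {a b : E} (ha : ‖a‖ = 1) (hb : ‖b‖ = 1) {s : ℝ} (hs0 : 0 ≤ s) (hs1 : s ≤ 1)
    (h : (1 - s) • a + s • b = 0) : a = -b := by
  have h1 : (1 - s) • a = -(s • b) := eq_neg_of_add_eq_zero_left h
  have h2 : ‖(1 - s) • a‖ = ‖s • b‖ := by rw [h1, norm_neg]
  rw [norm_smul, norm_smul, ha, hb, mul_one, mul_one, Real.norm_of_nonneg (by linarith),
    Real.norm_of_nonneg hs0] at h2
  have hs : s = 1 / 2 := by linarith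
  rw [hs] at h1
  have h3 : (1 / 2 : ℝ) • a = (1 / 2 : ℝ) • (-b) := by
    rw [smul_neg]; convert h1 using 2; norm_num
  have := smul_right_injective E (show (1 / 2 : ℝ) ≠ 0 by norm_num) h3
  exact this

/-- Two loops/paths on the sphere that are never antipodal are homotopic. -/
theorem path_homotopic_of_not_antipodal {x y : Metric.sphere (0 : E) 1} (p q : Path x y)
    (h : ∀ t, (p t : E) ≠ -(q t : E)) : p.Homotopic q := by
  have hne : ∀ z : I × I, (1 - (z.1 : ℝ)) • (p z.2 : E) + (z.1 : ℝ) • (q z.2 : E) ≠ 0 := by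
    intro z hz
    exact h z.2 (eq_neg_of_comb (mem_sphere_zero_iff_norm.mp (p z.2).2)
      (mem_sphere_zero_iff_norm.mp (q z.2).2) z.1.2.1 z.1.2.2 hz)
  have hcont : Continuous (fun z : I × I =>
      (1 - (z.1 : ℝ)) • (p z.2 : E) + (z.1 : ℝ) • (q z.2 : E)) := by fun_prop
  refine ⟨{ toFun := fun z => nrm _ (hne z)
            continuous_toFun := continuous_nrm _ hcont hne
            map_zero_left := ?_
            map_one_left := ?_
            prop' := ?_ }⟩
  · intro t
    apply Subtype.ext
    rw [nrm_coe]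
    simp [mem_sphere_zero_iff_norm.mp (p t).2]
  · intro t
    apply Subtype.ext
    rw [nrm_coe]
    simp [mem_sphere_zero_iff_norm.mp (q t).2]
  · intro s t ht
    rcases ht with rfl | ht
    · apply Subtype.ext
      simp only [ContinuousMap.coe_mk, nrm_coe]
      have hx : ‖(x : E)‖ = 1 := mem_sphere_zero_iff_norm.mp x.2
      simp only [Path.source, Path.coe_toContinuousMap]
      rw [← add_smul]
      simp [hx]
    · rw [Set.mem_singleton_iff] at ht
      subst ht
      apply Subtype.ext
      simp only [ContinuousMap.coe_mk, nrm_coe]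
      have hx : ‖(y : E)‖ = 1 := mem_sphere_zero_iff_norm.mp y.2
      simp only [Path.target, Path.coe_toContinuousMap]
      rw [← add_smul]
      simp [hx]

/-- The sphere minus a point is contractible. -/
theorem contractible_compl (v : Metric.sphere (0 : E) 1) :
    ContractibleSpace {u : Metric.sphere (0 : E) 1 // u ≠ v} := by
  have hv : ‖(v : E)‖ = 1 := mem_sphere_zero_iff_norm.mp v.2
  have hne : ∀ z : I × {u : Metric.sphere (0 : E) 1 // u ≠ v},
      (1 - (z.1 : ℝ)) • ((z.2 : Metric.sphere (0 : E) 1) : E) + (z.1 : ℝ) • (-(v : E)) ≠ 0 := by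
    intro z hz
    have := eq_neg_of_comb (mem_sphere_zero_iff_norm.mp z.2.1.2) (by rw [norm_neg, hv])
      z.1.2.1 z.1.2.2 hz
    rw [neg_neg] at this
    exact z.2.2 (Subtype.ext this)
  have hcont : Continuous (fun z : I × {u : Metric.sphere (0 : E) 1 // u ≠ v} =>
      (1 - (z.1 : ℝ)) • ((z.2 : Metric.sphere (0 : E) 1) : E) + (z.1 : ℝ) • (-(v : E))) := by
    fun_prop
  have hnv : ∀ z : I × {u : Metric.sphere (0 : E) 1 // u ≠ v}, nrm _ (hne z) ≠ v := by
    intro z hz
    have h1 := congrArg (fun w : Metric.sphere (0 : E) 1 => (w : E)) hz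
    simp only [nrm_coe] at h1
    set w : E := (1 - (z.1 : ℝ)) • ((z.2 : Metric.sphere (0 : E) 1) : E) + (z.1 : ℝ) • (-(v : E))
      with hw
    have hwn : 0 < ‖w‖ := norm_pos_iff.mpr (hne z)
    have h2 : w = ‖w‖ • (v : E) := by
      rw [← h1, smul_smul, mul_inv_cancel₀ hwn.ne', one_smul]
    have h3 : (1 - (z.1 : ℝ)) • ((z.2 : Metric.sphere (0 : E) 1) : E)
        = (‖w‖ + (z.1 : ℝ)) • (v : E) := by
      have : (1 - (z.1 : ℝ)) • ((z.2 : Metric.sphere (0 : E) 1) : E) = w + (z.1 : ℝ) • (v : E) := by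
        rw [hw, smul_neg]; abel
      rw [this, add_smul]
      nth_rewrite 1 [h2]
      rfl
    have h4 := congrArg norm h3
    have hu : ‖((z.2 : Metric.sphere (0 : E) 1) : E)‖ = 1 := mem_sphere_zero_iff_norm.mp z.2.1.2
    rw [norm_smul, norm_smul, hu, hv, mul_one, mul_one,
      Real.norm_of_nonneg (by linarith [z.1.2.2]), Real.norm_of_nonneg
        (by linarith [z.1.2.1, hwn.le])] at h4
    rw [← h4] at h3
    have h5 : (1 - (z.1 : ℝ)) ≠ 0 := by
      rw [h4]; linarith [z.1.2.1]
    exact z.2.2 (Subtype.ext (smul_right_injective E h5 h3))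
  -- the base point `-v`
  have hmv : (⟨-(v : E), by rw [mem_sphere_zero_iff_norm, norm_neg, hv]⟩ :
      Metric.sphere (0 : E) 1) ≠ v := by
    intro h
    have h1 : -(v : E) = (v : E) := congrArg (fun w : Metric.sphere (0 : E) 1 => (w : E)) h
    have h2 : (v : E) = 0 := by
      have : (2 : ℝ) • (v : E) = 0 := by
        rw [two_smul]
        nth_rewrite 1 [← h1]
        simp
      exact (smul_eq_zero.mp this).resolve_left (by norm_num)
    rw [h2, norm_zero] at hv
    exact zero_ne_one hv
  rw [contractible_iff_id_nullhomotopic]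
  refine ⟨⟨_, hmv⟩, ⟨{ toFun := fun z => ⟨nrm _ (hne z), hnv z⟩
                       continuous_toFun := (continuous_nrm _ hcont hne).subtype_mk _
                       map_zero_left := ?_
                       map_one_left := ?_ }⟩⟩
  · intro u
    apply Subtype.ext
    apply Subtype.ext
    simp only [nrm_coe]
    simp [mem_sphere_zero_iff_norm.mp u.1.2]
  · intro u
    apply Subtype.ext
    apply Subtype.ext
    simp only [nrm_coe]
    simp [hv]

/-- Every loop in the unit sphere of a real normed space of dimension `> 2` is null-homotopic. -/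
theorem loop_null [FiniteDimensional ℝ E] (hd : 2 < Module.finrank ℝ E)
    (x : Metric.sphere (0 : E) 1) (γ : Path x x) : γ.Homotopic (Path.refl x) := by
  have hx : ‖(x : E)‖ = 1 := mem_sphere_zero_iff_norm.mp x.2
  -- a smooth approximation of the loop
  have hfc : Continuous (fun t : ℝ => ((γ.extend t : Metric.sphere (0 : E) 1) : E)) :=
    continuous_subtype_val.comp γ.continuous_extend
  obtain ⟨g0, hg0, hg0a, -⟩ := hfc.exists_contDiff_approx 1 (ε := fun _ => 1 / 8)
    continuous_const (fun _ => by norm_num)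
  set g : ℝ → E := fun t => g0 t + (1 - t) • ((x : E) - g0 0) + t • ((x : E) - g0 1) with hg
  have hgd : ContDiff ℝ 1 g := by
    have h0 : ContDiff ℝ 1 g0 := hg0
    exact (h0.add ((contDiff_const.sub contDiff_id).smul contDiff_const)).add
      (contDiff_id.smul contDiff_const)
  have hg00 : g 0 = (x : E) := by simp [hg]
  have hg11 : g 1 = (x : E) := by simp [hg]
  have hb0 : ‖(x : E) - g0 0‖ ≤ 1 / 8 := by
    have := hg0a 0
    simp only [Path.extend_zero] at this
    rw [dist_comm, dist_eq_norm] at this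
    exact this.le
  have hb1 : ‖(x : E) - g0 1‖ ≤ 1 / 8 := by
    have := hg0a 1
    simp only [Path.extend_one] at this
    rw [dist_comm, dist_eq_norm] at this
    exact this.le
  have hclose : ∀ t : I, ‖g t - (γ t : E)‖ ≤ 1 / 4 := by
    intro t
    have h1 := hg0a (t : ℝ)
    rw [dist_eq_norm, γ.extend_apply t.2] at h1
    have h2 : g t - (γ t : E) = (g0 t - (γ t : E)) + ((1 - (t : ℝ)) • ((x : E) - g0 0)
        + (t : ℝ) • ((x : E) - g0 1)) := by
      simp only [hg]; abel
    have h3 : ‖(1 - (t : ℝ)) • ((x : E) - g0 0) + (t : ℝ) • ((x : E) - g0 1)‖ ≤ 1 / 8 := by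
      refine (norm_add_le _ _).trans ?_
      rw [norm_smul, norm_smul, Real.norm_of_nonneg (by linarith [t.2.2]),
        Real.norm_of_nonneg t.2.1]
      nlinarith [t.2.1, t.2.2]
    rw [h2]
    refine (norm_add_le _ _).trans ?_
    have h4 : ‖g0 (t : ℝ) - (γ t : E)‖ ≤ 1 / 8 := h1.le
    linarith
  have hgne : ∀ t : I, g t ≠ 0 := by
    intro t h0
    have := hclose t
    rw [h0, zero_sub, norm_neg, mem_sphere_zero_iff_norm.mp (γ t).2] at this
    norm_num at this
  -- the normalised smooth loop
  have hgc : Continuous (fun t : I => g t) := hgd.continuous.comp continuous_subtype_val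
  let δ : Path x x :=
    { toFun := fun t => nrm (g t) (hgne t)
      continuous_toFun := continuous_nrm _ hgc hgne
      source' := by
        apply Subtype.ext
        simp [nrm_coe, hg00, hx]
      target' := by
        apply Subtype.ext
        simp [nrm_coe, hg11, hx] }
  have hδ : ∀ t, (δ t : E) = ‖g t‖⁻¹ • g t := fun t => rfl
  have h1 : γ.Homotopic δ := by
    apply path_homotopic_of_not_antipodal
    intro t ht
    rw [hδ] at ht
    have h2 := hclose t
    have hγ : ‖(γ t : E)‖ = 1 := mem_sphere_zero_iff_norm.mp (γ t).2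
    have h3 : ‖g t - (γ t : E)‖ = ‖g t‖ + 1 := by
      rw [ht, sub_neg_eq_add]
      have : g (t : ℝ) + ‖g (t : ℝ)‖⁻¹ • g t = (1 + ‖g (t : ℝ)‖⁻¹) • g t := by
        rw [add_smul, one_smul]
      rw [this, norm_smul, Real.norm_of_nonneg (by positivity), add_mul, one_mul,
        inv_mul_cancel₀ (norm_ne_zero_iff.mpr (hgne t))]
    have h4 : 0 ≤ ‖g (t : ℝ)‖ := norm_nonneg _
    linarith
  -- a direction that the smooth loop misses
  have hF : ContDiff ℝ 1 (fun z : ℝ × ℝ => z.2 • g z.1) :=
    contDiff_snd.smul (hgd.comp contDiff_fst)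
  have hdense := hF.dense_compl_range_of_finrank_lt_finrank (by simpa using hd)
  obtain ⟨v, hv⟩ := hdense.nonempty
  have hv0 : v ≠ 0 := by
    intro h
    exact hv ⟨(0, 0), by simp [h]⟩
  set w : Metric.sphere (0 : E) 1 := nrm v hv0 with hw
  have hmiss : ∀ t : I, δ t ≠ w := by
    intro t ht
    have h2 : ‖g (t : ℝ)‖⁻¹ • g t = ‖v‖⁻¹ • v :=
      congrArg (fun u : Metric.sphere (0 : E) 1 => (u : E)) ht
    apply hv
    refine ⟨((t : ℝ), ‖v‖ * ‖g (t : ℝ)‖⁻¹), ?_⟩
    simp only
    rw [mul_smul, h2, smul_smul, mul_inv_cancel₀ (norm_ne_zero_iff.mpr hv0), one_smul]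
  have hxw : x ≠ w := by
    have := hmiss 0
    rwa [δ.source] at this
  have := contractible_compl w
  let δ' : Path (⟨x, hxw⟩ : {u : Metric.sphere (0 : E) 1 // u ≠ w}) ⟨x, hxw⟩ :=
    { toFun := fun t => ⟨δ t, hmiss t⟩
      continuous_toFun := δ.continuous.subtype_mk _
      source' := Subtype.ext δ.source
      target' := Subtype.ext δ.target }
  have h2 : δ'.Homotopic (Path.refl _) := SimplyConnectedSpace.paths_homotopic _ _
  have h3 := h2.map (⟨Subtype.val, continuous_subtype_val⟩ :
    C({u : Metric.sphere (0 : E) 1 // u ≠ w}, Metric.sphere (0 : E) 1))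
  exact h1.trans h3

theorem sphere_simplyConnected [FiniteDimensional ℝ E] (hd : 2 < Module.finrank ℝ E) :
    SimplyConnectedSpace (Metric.sphere (0 : E) 1) := by
  rw [simply_connected_iff_loops_nullhomotopic]
  refine ⟨?_, fun x γ => loop_null hd x γ⟩
  have h1 : 1 < Module.rank ℝ E := by
    rw [← Module.finrank_eq_rank]
    exact_mod_cast (show 1 < Module.finrank ℝ E by omega)
  exact isPathConnected_iff_pathConnectedSpace.mp (isPathConnected_sphere h1 0 zero_le_one)

end Pool.Agent.H.MP_5f9601.FA
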