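import Mathlib
import Pool.Agent.H.MP_5f9601.FA.Basic
import Pool.Agent.H.MP_5f9601.FA.SC

set_option autoImplicit false

/-!
# The inclusion `S(ℂᵐ) → S(ℂᵐ⁺¹)`: equivariant and null-homotopic
-/

namespace Pool.Agent.H.MP_5f9601.FA

open scoped Topology unitInterval

/-- `(x, c)` as a vector of `ℂᵐ⁺¹`. -/
noncomputable def snocV {m : ℕ} (x : V m) (c : ℂ) : V (m + 1) :=
  WithLp.toLp 2 (Fin.snoc (α := fun _ => ℂ) (fun i => x i) c)

theorem snocV_castSucc {m : ℕ} (x : V m) (c : ℂ) (i : Fin m) :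
    snocV x c i.castSucc = x i := by
  simp [snocV]

theorem snocV_last {m : ℕ} (x : V m) (c : ℂ) : snocV x c (Fin.last m) = c := by
  simp [snocV]

theorem snocV_norm_sq {m : ℕ} (x : V m) (c : ℂ) :
    ‖snocV x c‖ ^ 2 = ‖x‖ ^ 2 + ‖c‖ ^ 2 := by
  rw [EuclideanSpace.norm_sq_eq, EuclideanSpace.norm_sq_eq, Fin.sum_univ_castSucc]
  simp only [snocV_castSucc, snocV_last]

theorem snocV_smul {m : ℕ} (a : ℂ) (x : V m) (c : ℂ) :
    snocV (a • x) (a * c) = a • snocV x c := by
  ext i
  refine Fin.lastCases ?_ (fun i => ?_) i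
  · rw [snocV_last, PiLp.smul_apply, snocV_last, smul_eq_mul]
  · rw [snocV_castSucc, PiLp.smul_apply, PiLp.smul_apply, snocV_castSucc]

theorem continuous_snocV {X : Type*} [TopologicalSpace X] {m : ℕ} {f : X → V m} {g : X → ℂ}
    (hf : Continuous f) (hg : Continuous g) : Continuous (fun x => snocV (f x) (g x)) := by
  apply (PiLp.continuous_toLp 2 _).comp
  rw [continuous_pi_iff]
  intro i
  refine Fin.lastCases ?_ (fun i => ?_) i
  · simp only [Fin.snoc_last]
    exact hg
  · simp only [Fin.snoc_castSucc]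
    exact (EuclideanSpace.proj i : V m →L[ℂ] ℂ).continuous.comp hf

theorem snocV_ne_zero {m : ℕ} {x : V m} {c : ℂ} (h : x ≠ 0 ∨ c ≠ 0) : snocV x c ≠ 0 := by
  intro h0
  have h1 := snocV_norm_sq x c
  rw [h0, norm_zero] at h1
  have h2 := sq_nonneg ‖x‖
  have h3 := sq_nonneg ‖c‖
  rcases h with h | h
  · have := norm_pos_iff.mpr h
    have : 0 < ‖x‖ ^ 2 := by positivity
    linarith
  · have := norm_pos_iff.mpr h
    have : 0 < ‖c‖ ^ 2 := by positivity
    linarith

/-- The inclusion `S(ℂᵐ) → S(ℂᵐ⁺¹)`. -/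
noncomputable def incl (m : ℕ) : C(Sph m, Sph (m + 1)) where
  toFun x := ⟨snocV (x : V m) 0, by
    have h := snocV_norm_sq (x : V m) 0
    rw [mem_sphere_zero_iff_norm.mp x.2, norm_zero] at h
    rw [mem_sphere_zero_iff_norm]
    have h1 : ‖snocV (x : V m) 0‖ ^ 2 = 1 ^ 2 := by rw [h]; norm_num
    exact (sq_eq_sq₀ (norm_nonneg _) zero_le_one).mp h1⟩
  continuous_toFun :=
    (continuous_snocV continuous_subtype_val continuous_const).subtype_mk _

theorem incl_coe {m : ℕ} (x : Sph m) : (incl m x : V (m + 1)) = snocV (x : V m) 0 := rfl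

theorem incl_smul {m : ℕ} (c : ℂ) (x y : Sph m) (h : (y : V m) = c • (x : V m)) :
    (incl m y : V (m + 1)) = c • (incl m x : V (m + 1)) := by
  rw [incl_coe, incl_coe, h, ← snocV_smul, mul_zero]

/-- The last basis vector. -/
noncomputable def lastPt (m : ℕ) : Sph (m + 1) :=
  ⟨snocV 0 1, by
    have h := snocV_norm_sq (0 : V m) 1
    rw [norm_zero, norm_one] at h
    rw [mem_sphere_zero_iff_norm]
    have h1 : ‖snocV (0 : V m) 1‖ ^ 2 = 1 ^ 2 := by rw [h]; norm_num
    exact (sq_eq_sq₀ (norm_nonneg _) zero_le_one).mp h1⟩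

theorem incl_null (m : ℕ) : (incl m).Homotopic (ContinuousMap.const _ (lastPt m)) := by
  have hne : ∀ z : I × Sph m,
      snocV (((1 - (z.1 : ℝ) : ℝ) : ℂ) • (z.2 : V m)) ((z.1 : ℝ) : ℂ) ≠ 0 := by
    intro z
    apply snocV_ne_zero
    by_cases h : (z.1 : ℝ) = 0
    · left
      rw [h, sub_zero, Complex.ofReal_one, one_smul]
      exact sph_ne_zero z.2
    · right
      exact_mod_cast h
  have hcont : Continuous (fun z : I × Sph m =>
      snocV (((1 - (z.1 : ℝ) : ℝ) : ℂ) • (z.2 : V m)) ((z.1 : ℝ) : ℂ)) := by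
    apply continuous_snocV <;> fun_prop
  refine ⟨{ toFun := fun z => nrm _ (hne z)
            continuous_toFun := continuous_nrm _ hcont hne
            map_zero_left := ?_
            map_one_left := ?_ }⟩
  · intro x
    apply Subtype.ext
    simp only [nrm_coe, incl_coe]
    simp only [Set.Icc.coe_zero, sub_zero, Complex.ofReal_one, one_smul, Complex.ofReal_zero]
    have := mem_sphere_zero_iff_norm.mp (incl m x).2
    rw [incl_coe] at this
    rw [this, inv_one, one_smul]
  · intro x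
    apply Subtype.ext
    simp only [nrm_coe]
    simp only [Set.Icc.coe_one, sub_self, Complex.ofReal_one, Complex.ofReal_zero, zero_smul]
    have := mem_sphere_zero_iff_norm.mp (lastPt m).2
    have h2 : ((lastPt m : Sph (m + 1)) : V (m + 1)) = snocV 0 1 := rfl
    rw [h2] at this
    rw [this, inv_one, one_smul]
    rfl

end Pool.Agent.H.MP_5f9601.FA
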