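import Mathlib

set_option autoImplicit false

/-!
# The numbers: a sequence with `m_{i+1} + 1 + C (i+2)^r m_i^θ ≤ p m_i` and `p^i ≤ m_i`
-/

namespace Pool.Agent.H.MP_5f9601.FA

theorem exists_seq_aux (P : ℝ) (hP : 2 ≤ P) (C : ℝ) (hC : 0 ≤ C) (r : ℕ) (θ : ℝ) (hθ0 : 0 ≤ θ)
    (hθ : θ < 1) :
    ∃ m : ℕ → ℕ, (∀ i, P ^ i ≤ (m i : ℝ)) ∧ ∀ i, ((m (i + 1) : ℝ) + 1)
      + C * ((i : ℝ) + 2) ^ r * (m i : ℝ) ^ θ ≤ P * m i := by
  have hP0 : 0 < P := by linarith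
  have hP1 : 1 < P := by linarith
  set s : ℝ := P ^ ((θ - 1) / 2) with hs
  have hs0 : 0 < s := Real.rpow_pos_of_pos hP0 _
  have hs1 : s < 1 := Real.rpow_lt_one_of_one_lt_of_neg hP1 (by linarith)
  have hss : s * s = P ^ (θ - 1) := by
    rw [hs, ← Real.rpow_add hP0]
    congr 1
    ring
  have hPss : 1 ≤ P * (s * s) := by
    rw [hss]
    calc (1 : ℝ) ≤ P ^ θ := Real.one_le_rpow hP1.le hθ0
      _ = P ^ (1 : ℝ) * P ^ (θ - 1) := by
          rw [← Real.rpow_add hP0]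
          congr 1
          ring
      _ = P * P ^ (θ - 1) := by rw [Real.rpow_one]
  -- the bound for `n^r s^n`
  obtain ⟨K, hK0, hK⟩ : ∃ K : ℝ, 0 ≤ K ∧ ∀ n : ℕ, (n : ℝ) ^ r * s ^ n ≤ K := by
    have h1 := tendsto_pow_const_mul_const_pow_of_abs_lt_one r
      (show |s| < 1 by rw [abs_of_pos hs0]; exact hs1)
    obtain ⟨K, hK⟩ := h1.bddAbove_range
    refine ⟨K, ?_, fun n => hK ⟨n, rfl⟩⟩
    have := hK ⟨0, rfl⟩
    refine le_trans ?_ this
    positivity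
  -- the constant `A`
  obtain ⟨A, hA1, hA⟩ : ∃ A : ℝ, 1 ≤ A ∧ 2 + 4 * C * K / (s * s) ≤ A ^ (1 - θ) * (1 - s) := by
    have h1 := (tendsto_rpow_atTop (show 0 < 1 - θ by linarith)).eventually_ge_atTop
      ((2 + 4 * C * K / (s * s)) / (1 - s))
    obtain ⟨A, hA1, hA2⟩ := (h1.and (Filter.eventually_ge_atTop 1)).exists
    refine ⟨A, hA2, ?_⟩
    rw [div_le_iff₀ (by linarith)] at hA1
    exact hA1
  have hA0 : 0 < A := by linarith
  set X : ℕ → ℝ := fun i => P ^ i * (A * (1 + s ^ i)) with hX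
  have hPi : ∀ i : ℕ, (1 : ℝ) ≤ P ^ i := fun i => one_le_pow₀ hP1.le
  have hsi : ∀ i : ℕ, s ^ i ≤ 1 := fun i => pow_le_one₀ hs0.le hs1.le
  have hsi0 : ∀ i : ℕ, 0 < s ^ i := fun i => pow_pos hs0 i
  have hXlow : ∀ i, A * P ^ i ≤ X i := by
    intro i
    have h1 : 0 ≤ A * P ^ i * s ^ i := by have := hsi0 i; positivity
    have h2 : X i = A * P ^ i + A * P ^ i * s ^ i := by simp only [hX]; ring
    linarith
  have hAP : ∀ i, 1 ≤ A * P ^ i := fun i => one_le_mul_of_one_le_of_one_le hA1 (hPi i)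
  have hXup : ∀ i, X i ≤ 2 * (A * P ^ i) := by
    intro i
    have h1 : A * P ^ i * s ^ i ≤ A * P ^ i * 1 :=
      mul_le_mul_of_nonneg_left (hsi i) (by have := hAP i; linarith)
    have h2 : X i = A * P ^ i + A * P ^ i * s ^ i := by simp only [hX]; ring
    linarith
  refine ⟨fun i => ⌈X i⌉₊, fun i => ?_, fun i => ?_⟩
  · have h1 : X i ≤ (⌈X i⌉₊ : ℝ) := Nat.le_ceil _
    have h2 : P ^ i ≤ A * P ^ i := le_mul_of_one_le_left (by have := hPi i; linarith) hA1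
    linarith [hXlow i]
  · have hX0 : ∀ i, 0 ≤ X i := fun i => by linarith [hXlow i, hAP i]
    have h1 : (⌈X (i + 1)⌉₊ : ℝ) ≤ X (i + 1) + 1 := (Nat.ceil_lt_add_one (hX0 _)).le
    have h2 : (⌈X i⌉₊ : ℝ) ≤ 4 * (A * P ^ i) := by
      have := (Nat.ceil_lt_add_one (hX0 i)).le
      linarith [hXup i, hAP i]
    have h3 : X i ≤ (⌈X i⌉₊ : ℝ) := Nat.le_ceil _
    have hθi : (P ^ i) ^ θ = P ^ i * (s ^ i * s ^ i) := by
      have e1 : (s ^ i * s ^ i) = (P ^ i) ^ (θ - 1) := by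
        rw [← mul_pow, hss, ← Real.rpow_natCast, ← Real.rpow_natCast, ← Real.rpow_mul hP0.le,
          ← Real.rpow_mul hP0.le, mul_comm]
      rw [e1]
      have hPpos : 0 < P ^ i := by positivity
      calc (P ^ i) ^ θ = (P ^ i) ^ (1 : ℝ) * (P ^ i) ^ (θ - 1) := by
            rw [← Real.rpow_add hPpos]
            congr 1
            ring
        _ = P ^ i * (P ^ i) ^ (θ - 1) := by rw [Real.rpow_one]
    have h4 : (⌈X i⌉₊ : ℝ) ^ θ ≤ 4 * A ^ θ * (P ^ i * (s ^ i * s ^ i)) := by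
      calc (⌈X i⌉₊ : ℝ) ^ θ ≤ (4 * (A * P ^ i)) ^ θ :=
            Real.rpow_le_rpow (Nat.cast_nonneg _) h2 hθ0
        _ = 4 ^ θ * (A ^ θ * (P ^ i) ^ θ) := by
            rw [Real.mul_rpow (by norm_num) (by positivity), Real.mul_rpow hA0.le (by positivity)]
        _ ≤ 4 * (A ^ θ * (P ^ i) ^ θ) := by
            apply mul_le_mul_of_nonneg_right _ (by positivity)
            calc (4 : ℝ) ^ θ ≤ 4 ^ (1 : ℝ) := Real.rpow_le_rpow_of_exponent_le (by norm_num) hθ.le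
              _ = 4 := Real.rpow_one 4
        _ = 4 * A ^ θ * (P ^ i * (s ^ i * s ^ i)) := by rw [hθi]; ring
    have h5 : ((i : ℝ) + 2) ^ r * (s ^ i * s ^ i) ≤ K / (s * s) * s ^ i := by
      have h6 := hK (i + 2)
      push_cast at h6
      have h7 : ((i : ℝ) + 2) ^ r * s ^ i ≤ K / (s * s) := by
        rw [le_div_iff₀ (by positivity)]
        calc ((i : ℝ) + 2) ^ r * s ^ i * (s * s) = ((i : ℝ) + 2) ^ r * s ^ (i + 2) := by ring
          _ ≤ K := h6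
      calc ((i : ℝ) + 2) ^ r * (s ^ i * s ^ i) = ((i : ℝ) + 2) ^ r * s ^ i * s ^ i := by ring
        _ ≤ K / (s * s) * s ^ i := mul_le_mul_of_nonneg_right h7 (hsi0 i).le
    have hAθ : 1 ≤ A ^ θ := Real.one_le_rpow hA1 hθ0
    have h8 : (2 : ℝ) ≤ P ^ i * s ^ i * A ^ θ * 2 := by
      have e1 : (1 : ℝ) ≤ (P * (s * s)) ^ i := one_le_pow₀ hPss
      have e2 : (P * (s * s)) ^ i ≤ P ^ i * s ^ i := by
        rw [mul_pow, mul_pow]
        have : s ^ i * s ^ i ≤ s ^ i * 1 := mul_le_mul_of_nonneg_left (hsi i) (hsi0 i).le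
        calc P ^ i * (s ^ i * s ^ i) ≤ P ^ i * (s ^ i * 1) :=
              mul_le_mul_of_nonneg_left this (by positivity)
          _ = P ^ i * s ^ i := by ring
      have e3 : (1 : ℝ) ≤ P ^ i * s ^ i * A ^ θ :=
        one_le_mul_of_one_le_of_one_le (e1.trans e2) hAθ
      linarith
    have h9 : C * ((i : ℝ) + 2) ^ r * (⌈X i⌉₊ : ℝ) ^ θ
        ≤ P ^ i * s ^ i * A ^ θ * (4 * C * K / (s * s)) := by
      calc C * ((i : ℝ) + 2) ^ r * (⌈X i⌉₊ : ℝ) ^ θ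
          ≤ C * ((i : ℝ) + 2) ^ r * (4 * A ^ θ * (P ^ i * (s ^ i * s ^ i))) :=
            mul_le_mul_of_nonneg_left h4 (by positivity)
        _ = (4 * C * A ^ θ * P ^ i) * (((i : ℝ) + 2) ^ r * (s ^ i * s ^ i)) := by ring
        _ ≤ (4 * C * A ^ θ * P ^ i) * (K / (s * s) * s ^ i) :=
            mul_le_mul_of_nonneg_left h5 (by positivity)
        _ = P ^ i * s ^ i * A ^ θ * (4 * C * K / (s * s)) := by ring
    have h10 : P ^ i * s ^ i * A ^ θ * (2 + 4 * C * K / (s * s))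
        ≤ P ^ i * s ^ i * (A * (1 - s)) := by
      have e1 : A ^ θ * A ^ (1 - θ) = A := by
        rw [← Real.rpow_add hA0]
        have : θ + (1 - θ) = 1 := by ring
        rw [this, Real.rpow_one]
      calc P ^ i * s ^ i * A ^ θ * (2 + 4 * C * K / (s * s))
          ≤ P ^ i * s ^ i * A ^ θ * (A ^ (1 - θ) * (1 - s)) :=
            mul_le_mul_of_nonneg_left hA (by have := hsi0 i; positivity)
        _ = P ^ i * s ^ i * ((A ^ θ * A ^ (1 - θ)) * (1 - s)) := by ring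
        _ = P ^ i * s ^ i * (A * (1 - s)) := by rw [e1]
    have h11 : P ^ i * s ^ i * (A * (1 - s)) ≤ P * X i - X (i + 1) := by
      have e1 : P * X i - X (i + 1) = P * (P ^ i * s ^ i * (A * (1 - s))) := by
        simp only [hX]; ring
      rw [e1]
      have e2 : 0 ≤ P ^ i * s ^ i * (A * (1 - s)) := by
        have := hsi0 i
        have : 0 ≤ 1 - s := by linarith
        positivity
      exact le_mul_of_one_le_left e2 hP1.le
    have h12 : P * X i ≤ P * (⌈X i⌉₊ : ℝ) := mul_le_mul_of_nonneg_left h3 hP0.le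
    have h13 : P ^ i * s ^ i * A ^ θ * (2 + 4 * C * K / (s * s))
        = P ^ i * s ^ i * A ^ θ * 2 + P ^ i * s ^ i * A ^ θ * (4 * C * K / (s * s)) := by ring
    linarith

theorem exists_seq (p : ℕ) (hp : 2 ≤ p) (C : ℝ) (r : ℕ) (θ : ℝ) (hθ : θ < 1) :
    ∃ m : ℕ → ℕ, (∀ i, p ^ i ≤ m i) ∧ ∀ i, ((m (i + 1) + 1 : ℕ) : ℝ)
      + C * (((i + 1 : ℕ) : ℝ) + 1) ^ r * (m i : ℝ) ^ θ ≤ p * m i := by
  obtain ⟨m, h1, h2⟩ := exists_seq_aux (p : ℝ) (by exact_mod_cast hp) (max C 0) (le_max_right _ _)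
    r (max θ 0) (le_max_right _ _) (max_lt hθ one_pos)
  have h3 : ∀ i, p ^ i ≤ m i := fun i => by exact_mod_cast h1 i
  refine ⟨m, h3, fun i => ?_⟩
  have hm : (1 : ℝ) ≤ m i := by
    have : 1 ≤ p ^ i := Nat.one_le_pow _ _ (by omega)
    exact_mod_cast this.trans (h3 i)
  have h4 := h2 i
  have h5 : (m i : ℝ) ^ θ ≤ (m i : ℝ) ^ (max θ 0) :=
    Real.rpow_le_rpow_of_exponent_le hm (le_max_left _ _)
  have h6 : C * (((i + 1 : ℕ) : ℝ) + 1) ^ r * (m i : ℝ) ^ θ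
      ≤ max C 0 * ((i : ℝ) + 2) ^ r * (m i : ℝ) ^ (max θ 0) := by
    have e1 : (((i + 1 : ℕ) : ℝ) + 1) = (i : ℝ) + 2 := by push_cast; ring
    rw [e1]
    have e2 : C * ((i : ℝ) + 2) ^ r ≤ max C 0 * ((i : ℝ) + 2) ^ r :=
      mul_le_mul_of_nonneg_right (le_max_left _ _) (by positivity)
    calc C * ((i : ℝ) + 2) ^ r * (m i : ℝ) ^ θ
        ≤ max C 0 * ((i : ℝ) + 2) ^ r * (m i : ℝ) ^ θ :=
          mul_le_mul_of_nonneg_right e2 (by positivity)
      _ ≤ max C 0 * ((i : ℝ) + 2) ^ r * (m i : ℝ) ^ (max θ 0) :=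
          mul_le_mul_of_nonneg_left h5 (by have := le_max_right C 0; positivity)
  push_cast at h6 ⊢
  linarith

end Pool.Agent.H.MP_5f9601.FA
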