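import Mathlib
import Pool.Agent.H.MP_5f9601.FA.Basic
import Pool.Agent.H.MP_5f9601.FA.SC

set_option autoImplicit false

/-!
# The quotient maps are coverings; π₁-surjectivity of the descended maps
-/

namespace Pool.Agent.H.MP_5f9601.FA

open scoped Topology unitInterval

/-- The generator of the acting group, as a unit complex number. -/
noncomputable def gen (N : ℕ) : Metric.sphere (0 : ℂ) 1 :=
  ⟨zeta N, by rw [mem_sphere_zero_iff_norm, norm_zeta]⟩

theorem gen_coe (N : ℕ) : ((gen N : Metric.sphere (0 : ℂ) 1) : ℂ) = zeta N := rfl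

theorem gen_pow_coe (N j : ℕ) : ((gen N ^ j : Metric.sphere (0 : ℂ) 1) : ℂ) = zeta N ^ j := by
  rw [Metric.unitSphere.coe_pow, gen_coe]

theorem gen_pow_self (N : ℕ) (hN : 0 < N) : gen N ^ N = 1 := by
  apply Subtype.ext
  rw [gen_pow_coe, zeta_pow_self N hN]
  rfl

/-- The acting group. -/
noncomputable def Gp (N : ℕ) : Subgroup (Metric.sphere (0 : ℂ) 1) := Subgroup.zpowers (gen N)

theorem finite_Gp (N : ℕ) (hN : 0 < N) : Finite (Gp N) := by
  have : IsOfFinOrder (gen N) := isOfFinOrder_iff_pow_eq_one.mpr ⟨N, hN, gen_pow_self N hN⟩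
  exact this.finite_zpowers

theorem mem_orbit_iff {n N : ℕ} (hN : 0 < N) (x y : Sph n) :
    y ∈ MulAction.orbit (Gp N) x ↔ rel n N x y := by
  have hfin : IsOfFinOrder (gen N) := isOfFinOrder_iff_pow_eq_one.mpr ⟨N, hN, gen_pow_self N hN⟩
  constructor
  · rintro ⟨⟨g, hg⟩, rfl⟩
    obtain ⟨j, hj⟩ := (hfin.mem_powers_iff_mem_zpowers.mpr hg)
    simp only at hj
    subst hj
    refine ⟨j, ?_⟩
    rw [← gen_pow_coe]
    rfl
  · rintro ⟨j, hj⟩
    refine ⟨⟨gen N ^ j, Subgroup.npow_mem_zpowers _ _⟩, ?_⟩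
    apply Subtype.ext
    rw [hj, ← gen_pow_coe]
    rfl

instance {n N : ℕ} : IsCancelSMul (Gp N) (Sph n) where
  right_cancel' := by
    rintro ⟨g, hg⟩ ⟨h, hh⟩ x hx
    apply Subtype.ext
    apply Subtype.ext
    have h1 : (g : ℂ) • (x : V n) = (h : ℂ) • (x : V n) := congrArg (fun y : Sph n => (y : V n)) hx
    exact smul_left_injective ℂ (sph_ne_zero x) h1

theorem quot_mk_eq_iff {n N : ℕ} (hN : 0 < N) (x y : Sph n) :
    Quot.mk (rel n N) x = Quot.mk (rel n N) y ↔ rel n N x y :=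
  (rel_equivalence n N hN).quot_mk_eq_iff x y

theorem isCoveringMap_mk (n N : ℕ) (hN : 0 < N) : IsCoveringMap (Quot.mk (rel n N)) := by
  have := finite_Gp N hN
  have h1 : Topology.IsQuotientMap (Quot.mk (rel n N)) := isQuotientMap_quot_mk
  exact (h1.isQuotientCoveringMap_of_properlyDiscontinuousSMul (G := Gp N)
    (fun {e₁ e₂} => by
      rw [quot_mk_eq_iff hN, mem_orbit_iff hN]
      exact ⟨(rel_equivalence n N hN).symm, (rel_equivalence n N hN).symm⟩)).isCoveringMap

/-- Homotopy of paths does not see casts. -/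
theorem homotopic_of_coe {X : Type*} [TopologicalSpace X] {a b a' b' : X} {p q : Path a b}
    {p' q' : Path a' b'} (h : p.Homotopic q) (hp : ∀ t, p' t = p t) (hq : ∀ t, q' t = q t) :
    p'.Homotopic q' := by
  have ha : a' = a := by rw [← p'.source, hp, p.source]
  have hb : b' = b := by rw [← p'.target, hp, p.target]
  subst ha
  subst hb
  have h1 : p' = p := Path.ext (funext hp)
  have h2 : q' = q := Path.ext (funext hq)
  rw [h1, h2]
  exact h

theorem finrank_real_V (n : ℕ) : Module.finrank ℝ (V n) = 2 * n := by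
  rw [← Module.finrank_mul_finrank ℝ ℂ (V n), Complex.finrank_real_complex, finrank_euclideanSpace,
    Fintype.card_fin]

theorem sph_simplyConnected {n : ℕ} (hn : 2 ≤ n) : SimplyConnectedSpace (Sph n) :=
  sphere_simplyConnected (by rw [finrank_real_V]; omega)

/-- π₁-surjectivity of the map between lens spaces induced by an equivariant map. -/
theorem pi1_surj {a b N M : ℕ} (ha : 2 ≤ a) (hb : 2 ≤ b) (hM : 0 < M)
    (f : C(Sph a, Sph b))
    (hf : ∀ x y : Sph a, (y : V a) = zeta N • (x : V a) → (f y : V b) = zeta M • (f x : V b))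
    (q : C(Quot (rel a N), Quot (rel b M))) (hq : ∀ x, q (Quot.mk _ x) = Quot.mk _ (f x))
    (x : Quot (rel a N)) (δ : Path (q x) (q x)) :
    ∃ γ : Path x x, (γ.map q.continuous).Homotopic δ := by
  obtain ⟨x, rfl⟩ := Quot.exists_rep x
  have := sph_simplyConnected ha
  have := sph_simplyConnected hb
  have cov := isCoveringMap_mk b M hM
  have h0 : δ.toContinuousMap 0 = Quot.mk (rel b M) (f x) := by
    rw [← hq]
    exact δ.source
  set Γ := cov.liftPath δ.toContinuousMap (f x) h0 with hΓ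
  have hΓl : ∀ t, Quot.mk (rel b M) (Γ t) = δ t := fun t =>
    congrFun (cov.liftPath_lifts δ.toContinuousMap (f x) h0) t
  have hΓ0 : Γ 0 = f x := cov.liftPath_zero _ _ _
  have h1 : Quot.mk (rel b M) (f x) = Quot.mk (rel b M) (Γ 1) := by
    rw [hΓl, δ.target, hq]
  obtain ⟨j, hj⟩ := (quot_mk_eq_iff hM _ _).mp h1
  have hc : ‖zeta N ^ j‖ = 1 := by rw [norm_pow, norm_zeta, one_pow]
  set y : Sph a := rot (zeta N ^ j) hc x with hy
  have hfy : f y = Γ 1 := by
    apply Subtype.ext
    rw [hj]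
    exact iterate_equivariant (norm_zeta N) f hf j x y rfl
  have hxy : Quot.mk (rel a N) x = Quot.mk (rel a N) y := Quot.sound ⟨j, rfl⟩
  obtain ⟨γ'⟩ : Nonempty (Path x y) := PathConnectedSpace.joined x y
  let Γ' : Path (f x) (f y) := ⟨Γ, hΓ0, hfy.symm⟩
  have h2 : (γ'.map f.continuous).Homotopic Γ' := SimplyConnectedSpace.paths_homotopic _ _
  have hcont : Continuous (Quot.mk (rel a N)) := continuous_quot_mk
  let mkb : C(Sph b, Quot (rel b M)) := ⟨Quot.mk _, continuous_quot_mk⟩
  refine ⟨(γ'.map hcont).cast rfl hxy, ?_⟩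
  have h3 := h2.map mkb
  refine homotopic_of_coe h3 (fun t => ?_) (fun t => ?_)
  · exact hq _
  · exact (hΓl t).symm

end Pool.Agent.H.MP_5f9601.FA
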