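import Mathlib
import Pool.Agent.H.MP_5f9601.FA.Basic
import Pool.Agent.H.MP_5f9601.FA.Null
import Pool.Agent.H.MP_5f9601.FA.Num
import Pool.Agent.H.MP_5f9601.FA.Pi1

set_option autoImplicit false

/-!
# Final assembly: `HU p` for all odd primes implies the frozen statement `S13261`
-/

namespace Pool.Agent.H.MP_5f9601.FA

open scoped Topology unitInterval

/-- The composites `g i j = f i ∘ ⋯ ∘ f (i + j - 1)`. -/
noncomputable def comps (n : ℕ → ℕ) (f : ∀ i : ℕ, C(Sph (n (i + 1)), Sph (n i))) (i : ℕ) :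
    ∀ j : ℕ, C(Sph (n (i + j)), Sph (n i))
  | 0 => ContinuousMap.id _
  | j + 1 => (comps n f i j).comp (f (i + j))

theorem main_of_HU (h : ∀ p : ℕ, p.Prime → p ≠ 2 → HU p) :
    ∀ p : ℕ, p.Prime → p ≠ 2 →
  ∃ (n k : ℕ → ℕ)
    (f : ∀ i : ℕ, C(↥(Metric.sphere (0 : EuclideanSpace ℂ (Fin (n (i+1)))) 1),
                     ↥(Metric.sphere (0 : EuclideanSpace ℂ (Fin (n i))) 1)))
    (q : ∀ i : ℕ,
      C(Quot (fun x y : ↥(Metric.sphere (0 : EuclideanSpace ℂ (Fin (n (i+1)))) 1) =>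
            ∃ j : ℕ, (y : EuclideanSpace ℂ (Fin (n (i+1)))) =
              Complex.exp (2 * (Real.pi : ℂ) * Complex.I / ((p ^ k (i+1) : ℕ) : ℂ)) ^ j •
                (x : EuclideanSpace ℂ (Fin (n (i+1))))),
        Quot (fun x y : ↥(Metric.sphere (0 : EuclideanSpace ℂ (Fin (n i))) 1) =>
            ∃ j : ℕ, (y : EuclideanSpace ℂ (Fin (n i))) =
              Complex.exp (2 * (Real.pi : ℂ) * Complex.I / ((p ^ k i : ℕ) : ℂ)) ^ j •
                (x : EuclideanSpace ℂ (Fin (n i))))))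
    (g : ∀ i j : ℕ, C(↥(Metric.sphere (0 : EuclideanSpace ℂ (Fin (n (i+j)))) 1),
                       ↥(Metric.sphere (0 : EuclideanSpace ℂ (Fin (n i))) 1))),
    Filter.Tendsto k Filter.atTop Filter.atTop ∧
    (∀ i, p ^ (k i - k 0) < n i) ∧
    (∀ i x, q i (Quot.mk _ x) = Quot.mk _ (f i x)) ∧
    (∀ i x (δ : Path (q i x) (q i x)), ∃ γ : Path x x,
        (γ.map (q i).continuous).Homotopic δ) ∧
    (∀ i, g i 0 = ContinuousMap.id _) ∧
    (∀ i j, g i (j+1) = (g i j).comp (f (i+j))) ∧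
    (∀ i, ∃ j, ∃ y, (g i j).Homotopic (ContinuousMap.const _ y)) := by
  intro p hp hp2
  obtain ⟨C, r, θ, hθ, H⟩ := h p hp hp2
  have hp' : 0 < p := hp.pos
  obtain ⟨m, hm1, hm2⟩ := exists_seq p hp.two_le C r θ hθ
  have hm0 : ∀ i, 1 ≤ m i := fun i => (Nat.one_le_pow _ _ hp').trans (hm1 i)
  have hE : ∀ i, EqMap p (i + 1) (m (i + 1) + 1) (m i) := fun i =>
    H (i + 1) (m i) (m (i + 1) + 1) (by omega) (hm0 i) (hm2 i)
  choose F hF using hE
  -- the maps of spheres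
  let f : ∀ i : ℕ, C(Sph (m (i + 1) + 1), Sph (m i + 1)) := fun i => (incl (m i)).comp (F i)
  have hf : ∀ (i : ℕ) (x y : Sph (m (i + 1) + 1)),
      (y : V (m (i + 1) + 1)) = zeta (p ^ (i + 1 + 1)) • (x : V (m (i + 1) + 1)) →
      (f i y : V (m i + 1)) = zeta (p ^ (i + 1)) • (f i x : V (m i + 1)) := by
    intro i x y hxy
    exact incl_smul _ _ _ (hF i x y hxy)
  -- the quotient maps
  have hrel : ∀ (i : ℕ) (x y : Sph (m (i + 1) + 1)), rel (m (i + 1) + 1) (p ^ (i + 1 + 1)) x y →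
      rel (m i + 1) (p ^ (i + 1)) (f i x) (f i y) := by
    rintro i x y ⟨j, hj⟩
    exact ⟨j, iterate_equivariant (norm_zeta _) (f i) (hf i) j x y hj⟩
  let q : ∀ i : ℕ, C(Quot (rel (m (i + 1) + 1) (p ^ (i + 1 + 1))),
      Quot (rel (m i + 1) (p ^ (i + 1)))) := fun i =>
    ⟨Quot.map (f i) (hrel i),
      Topology.IsQuotientMap.continuous_iff isQuotientMap_quot_mk |>.mpr
        (continuous_quot_mk.comp (f i).continuous)⟩
  refine ⟨fun i => m i + 1, fun i => i + 1, f, q, comps (fun i => m i + 1) f, ?_, ?_, ?_, ?_, ?_,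
    ?_, ?_⟩
  · exact Filter.tendsto_add_atTop_nat 1
  · intro i
    have : i + 1 - (0 + 1) = i := by omega
    simp only [this]
    exact Nat.lt_succ_of_le (hm1 i)
  · intro i x
    rfl
  · intro i x δ
    exact pi1_surj (by have := hm0 (i + 1); omega) (by have := hm0 i; omega)
      (Nat.pow_pos hp') (f i) (hf i) (q i) (fun _ => rfl) x δ
  · intro i
    rfl
  · intro i j
    rfl
  · intro i
    refine ⟨1, lastPt (m i), ?_⟩
    exact (incl_null (m i)).comp (ContinuousMap.Homotopic.refl (F i))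

end Pool.Agent.H.MP_5f9601.FA
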